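import Pool.Agent.W651.SO.Stm

/-!
# Scattered suborderable spaces are orderable: the final induction
-/

set_option autoImplicit false

namespace Pool.Agent.W348.SO

open Set
open Pool.Agent.W651.SO

theorem fin : PropDUAL → PropLG → PropKP → PropKPD → PropKC → PropFIN := by
  intro _ hLG hKP hKPD hKC Y _ _ hGO hSc
  have hall : ∀ p : Y, ∃ G : Set Y, Good G ∧ p ∈ G := by
    by_contra hcon
    push Not at hcon
    obtain ⟨p₀, hp₀⟩ := hcon
    have hne : {p : Y | ¬ ∃ G : Set Y, Good G ∧ p ∈ G}.Nonempty := by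
      refine ⟨p₀, ?_⟩
      rintro ⟨G, hG, hpG⟩
      exact hp₀ G hG hpG
    obtain ⟨p, hp, U, hU, hUA⟩ := hSc _ hne
    have hpU : p ∈ U := by
      have h1 : p ∈ U ∩ {p : Y | ¬ ∃ G : Set Y, Good G ∧ p ∈ G} := by
        rw [hUA]
        exact mem_singleton p
      exact h1.1
    obtain ⟨N, hN, hpN, hNU, hNc⟩ := hGO.cvx p U hU hpU
    have hq : ∀ q ∈ N, q ≠ p → ∃ G : Set Y, Good G ∧ q ∈ G := by
      intro q hqN hqp
      by_contra hnot
      have h1 : q ∈ U ∩ {p : Y | ¬ ∃ G : Set Y, Good G ∧ p ∈ G} := ⟨hNU hqN, hnot⟩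
      rw [hUA] at h1
      exact hqp h1
    have hSt : ∀ C ⊆ N, IsOpen C → Cvx C → p ∉ C → St C := fun C hC ho hc hpC =>
      hLG Y hGO hSc C ho hc fun x hx => hq x (hC hx) fun h => hpC (h ▸ hx)
    have hRL : ∀ q ∈ N, q ≠ p → RP q ∧ LP q := by
      intro q h1 h2
      obtain ⟨G, hG, hqG⟩ := hq q h1 h2
      exact hG.2.2.2 q hqG
    have hRP := hKP Y hGO hSc N p hN hNc hpN hSt hRL
    have hLP := hKPD Y hGO hSc N p hN hNc hpN hSt hRL
    have hKC' := hKC Y hGO hSc N p hN hNc hpN hSt hRP hLP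
    refine hp ⟨N, ⟨hN, hNc, fun C hC ho hc => ?_, fun q hqN => ?_⟩, hpN⟩
    · by_cases h : p ∈ C
      · exact hKC' C hC ho hc h
      · exact hSt C hC ho hc h
    · by_cases h : q = p
      · rw [h]
        exact ⟨hRP, hLP⟩
      · exact hRL q hqN h
  obtain ⟨⟨r, hr⟩, -⟩ := hLG Y hGO hSc univ isOpen_univ (fun _ _ _ _ _ _ _ => mem_univ _)
    (fun x _ => hall x)
  exact ⟨r, hr⟩

end Pool.Agent.W348.SO
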